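import Pool.Agent.TH634.Cusp.Main

/-!
# Equal volumes of Dehn fillings without finitely many integral linear relations

The manifold is a 6-sheeted covering `M` with one cusp of the complement of the figure-eight knot.
Its cusp lattice `L` is generated by `2 m + l` and `-4 m + l`, where `m` and `l` are the meridian and
the longitude of the knot, and it is not invariant under the reflection `r(m) = m`, `r(l) = -l`
which comes from the orientation reversing symmetry of the knot complement. The slopes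
`6 ((6 n + 3) m + l)` and `6 ((6 n + 3) m - l)` of `M` are primitive in `L`, and
the fillings of `M` along them have the same volume, as they are 6-sheeted orbifold coverings of
mirror images. In the basis of `L` they are `(6 n + 7, - 6 n - 1)` and `(6 n - 1, - 6 n - 5)`.
-/

set_option autoImplicit false

namespace Pool.Agent.Results.MP_bec0da_gt.NoIntegerRelations

open Pool.Agent.TH634.Cusp

/-- There is a one-cusped hyperbolic 3-manifold (given by an ideal triangulation `T` and a basis
`μ, l` of the homology of the cusp torus) such that for every finite set `S` of integral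
`2 × 2` matrices there are slopes `(p, q)` and `(p', q')` whose Dehn fillings are hyperbolic with the
same volume and for which `(p, q) ≠ A (p', q')` for all `A ∈ S`. -/
theorem result : ∃ (ι : Type) (_ : Fintype ι) (T : IdealTri ι) (x₀ : Flag ι) (μ l : List Bool),
    T.IsOneCusped x₀ μ l ∧
    ∀ S : Finset (Matrix (Fin 2) (Fin 2) ℤ), ∃ p q p' q' : ℤ, IsCoprime p q ∧ IsCoprime p' q' ∧
      (∃ V : ℝ, T.FillingHasVolume x₀ μ l p q V ∧ T.FillingHasVolume x₀ μ l p' q' V) ∧
      ∀ A ∈ S, A.mulVec ![p', q'] ≠ ![p, q] := by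
  refine ⟨Fin 2 × Fin 6, inferInstance, T12, x0, w1, w2, one_cusped, fun S => ?_⟩
  obtain ⟨N, hN⟩ := fillings
  have hfin : (⋃ A ∈ S, {n : ℕ | A.mulVec ![6 * (n : ℤ) - 1, -6 * (n : ℤ) - 5] =
      ![6 * (n : ℤ) + 7, -6 * (n : ℤ) - 1]}).Finite := by
    refine Set.Finite.biUnion S.finite_toSet fun A _ => Set.Subsingleton.finite ?_
    intro n hn m hm
    have h1 := congrFun hn 0
    have h2 := congrFun hm 0
    simp only [Matrix.mulVec, dotProduct, Fin.sum_univ_two, Matrix.cons_val_zero,
      Matrix.cons_val_one] at h1 h2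
    by_contra hne
    have hne' : ((n : ℤ) - m) ≠ 0 := by
      intro h
      apply hne
      have : (n : ℤ) = m := by linarith
      exact_mod_cast this
    have h3 : (6 * ((n : ℤ) - m)) * (A 0 0 - A 0 1 - 1) = 0 := by linear_combination h1 - h2
    rcases mul_eq_zero.1 h3 with h4 | h4
    · exact hne' (by linarith)
    · have h5 : A 0 0 = A 0 1 + 1 := by linarith
      rw [h5] at h1
      have h6 : 6 * A 0 1 = -8 := by linear_combination -h1
      omega
  obtain ⟨n, hn1, hn2⟩ : ∃ n, N ≤ n ∧ n ∉ (⋃ A ∈ S, {n : ℕ | A.mulVec ![6 * (n : ℤ) - 1,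
      -6 * (n : ℤ) - 5] = ![6 * (n : ℤ) + 7, -6 * (n : ℤ) - 1]}) := by
    obtain ⟨n, hn, hn'⟩ := (Set.infinite_of_finite_compl (s := (⋃ A ∈ S, {n : ℕ | A.mulVec
      ![6 * (n : ℤ) - 1, -6 * (n : ℤ) - 5] = ![6 * (n : ℤ) + 7, -6 * (n : ℤ) - 1]})ᶜ)
      (by rw [compl_compl]; exact hfin)).exists_gt N
    exact ⟨n, hn'.le, hn⟩
  obtain ⟨V, hV1, hV2⟩ := hN n hn1
  refine ⟨6 * (n : ℤ) + 7, -6 * (n : ℤ) - 1, 6 * (n : ℤ) - 1, -6 * (n : ℤ) - 5, ?_, ?_,
    ⟨V, hV1, hV2⟩, ?_⟩
  · exact ⟨-(n : ℤ), -(n : ℤ) - 1, by ring⟩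
  · exact ⟨-(n : ℤ) - 1, -(n : ℤ), by ring⟩
  · intro A hA h
    apply hn2
    simp only [Set.mem_iUnion]
    exact ⟨A, hA, h⟩

end Pool.Agent.Results.MP_bec0da_gt.NoIntegerRelations
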